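import Pool.Agent.U388.TF4.Key

set_option autoImplicit false

namespace Pool.Agent.U388.TF4

open Finset

variable {V : Type*} [Fintype V] [DecidableEq V]

/-- consequence of the main argument for a single typical vertex `b` -/
theorem card_le (G : SimpleGraph V) [DecidableRel G.Adj] (hn : ¬ G.Colorable 3)
    (hc : ∀ e ∈ G.edgeSet, (G.deleteEdges {e}).Colorable 3)
    (P : Finset V) (hP : ∀ p ∈ P, ∀ q ∈ P, ¬ G.Adj p q) (z : ℕ)
    (W' P' : Finset V)
    (hW' : W' = (univ \ P).filter (fun w => (P.filter (fun p => ¬ G.Adj w p)).card ≤ z))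
    (hP' : P' = P.filter (fun p => ((univ \ P).filter (fun w => ¬ G.Adj p w)).card ≤ z))
    (h1 : 3 * z + 2 ≤ P.card) (h2 : 2 * z + 2 ≤ W'.card) :
    P'.card ≤ ((univ \ P) \ W').card + z := by
  have hne : W'.Nonempty := card_pos.1 (by omega)
  obtain ⟨b, hb⟩ := hne
  have hbz : (P.filter (fun p => ¬ G.Adj b p)).card ≤ z := by
    rw [hW'] at hb; exact (mem_filter.1 hb).2
  have hpick : ∀ a ∈ P'.filter (fun a => G.Adj a b), ∃ x ∈ (univ \ P) \ W', G.Adj x a ∧
      ∀ a' ∈ P', G.Adj x a' → G.Adj b a' → a' = a := by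
    intro a ha
    rw [mem_filter] at ha
    exact exists_private G hn hc P hP z W' P' hW' hP' h1 h2 a b ha.1 hb ha.2
  choose! f hf using hpick
  have hinj : (P'.filter (fun a => G.Adj a b)).card ≤ ((univ \ P) \ W').card := by
    apply card_le_card_of_injOn f
    · intro a ha
      exact (hf a ha).1
    · intro a ha a' ha' haa
      have h3 := hf a ha
      have h4 := hf a' ha'
      have ha2 := mem_filter.1 (mem_coe.1 ha)
      exact h4.2.2 a ha2.1 (haa ▸ h3.2.1) ha2.2.symm
  have hsub : P' ⊆ P'.filter (fun a => G.Adj a b) ∪ P.filter (fun p => ¬ G.Adj b p) := by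
    intro p hp
    have hpP : p ∈ P := by
      rw [hP'] at hp; exact (mem_filter.1 hp).1
    by_cases h : G.Adj b p
    · rw [mem_union, mem_filter]
      exact Or.inl ⟨hp, h.symm⟩
    · rw [mem_union, mem_filter (s := P)]
      exact Or.inr ⟨hpP, h⟩
  have h3 := card_le_card hsub
  have h4 := card_union_le (P'.filter (fun a => G.Adj a b)) (P.filter (fun p => ¬ G.Adj b p))
  omega

/-- number of missing edges between `P` and its complement, seen from both sides -/
theorem missing_comm (G : SimpleGraph V) [DecidableRel G.Adj] (P W : Finset V) :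
    ∑ p ∈ P, (W.filter (fun w => ¬ G.Adj p w)).card =
      ∑ w ∈ W, (P.filter (fun p => ¬ G.Adj w p)).card := by
  simp only [card_filter]
  rw [sum_comm]
  refine sum_congr rfl fun w _ => sum_congr rfl fun p _ => ?_
  simp [G.adj_comm]

/-- Markov's inequality for finite sums -/
theorem markov (S : Finset V) (f : V → ℕ) (z : ℕ) :
    (S \ S.filter (fun w => f w ≤ z)).card * (z + 1) ≤ ∑ w ∈ S, f w := by
  calc (S \ S.filter (fun w => f w ≤ z)).card * (z + 1)
      = ∑ _w ∈ S \ S.filter (fun w => f w ≤ z), (z + 1) := by rw [sum_const, smul_eq_mul]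
    _ ≤ ∑ w ∈ S \ S.filter (fun w => f w ≤ z), f w := by
        apply sum_le_sum
        intro w hw
        rw [mem_sdiff, mem_filter, not_and, not_le] at hw
        exact hw.2 hw.1
    _ ≤ ∑ w ∈ S, f w := sum_le_sum_of_subset sdiff_subset

/-- the numerical part -/
theorem numeric (n e p w M z x y p' w' : ℝ) (hn : 100 ≤ n) (hz1 : n < 20 * (z + 1))
    (hz2 : 20 * z ≤ n) (h : p + w = n) (hMe : M + 2 * e ≤ 2 * (p * w)) (heD : 2 * e ≤ n * p)
    (rX : x * (z + 1) ≤ M) (rY : y * (z + 1) ≤ M) (hM0 : 0 ≤ M)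
    (hw0 : 0 ≤ w) (he : (1 / 4 - 1 / 1000) * n ^ 2 < e)
    (hxw : x + w' = w) (hyp : y + p' = p) :
    3 * z + 2 ≤ p ∧ 2 * z + 2 ≤ w' ∧ x + z < p' := by
  have hn0 : 0 < n := by linarith
  have h4 : 4 * (p * w) ≤ n ^ 2 := by
    have h5 : n ^ 2 = (p - w) ^ 2 + 4 * (p * w) := by rw [← h]; ring
    have h6 := sq_nonneg (p - w)
    linarith
  have hM : M < n ^ 2 / 500 := by linarith
  have hprod : n / 25 * (n / 20) = n ^ 2 / 500 := by ring
  have hx : x ≤ n / 25 := by
    by_contra hc
    push Not at hc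
    have h1 : n / 25 * (n / 20) ≤ x * (z + 1) :=
      mul_le_mul hc.le (by linarith) (by linarith) (by linarith)
    linarith
  have hy : y ≤ n / 25 := by
    by_contra hc
    push Not at hc
    have h1 : n / 25 * (n / 20) ≤ y * (z + 1) :=
      mul_le_mul hc.le (by linarith) (by linarith) (by linarith)
    linarith
  have hp : 498 / 1000 * n ≤ p := by
    by_contra hc
    push Not at hc
    have h1 : n * p ≤ n * (498 / 1000 * n) := mul_le_mul_of_nonneg_left hc.le hn0.le
    have h2 : n * (498 / 1000 * n) = 498 / 1000 * n ^ 2 := by ring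
    linarith
  have hw : 249 / 1000 * n ≤ w := by
    by_contra hc
    push Not at hc
    have h1 : p * w ≤ n * w := mul_le_mul_of_nonneg_right (by linarith) hw0
    have h2 : n * w ≤ n * (249 / 1000 * n) := mul_le_mul_of_nonneg_left hc.le hn0.le
    have h3 : n * (249 / 1000 * n) = 249 / 1000 * n ^ 2 := by ring
    linarith
  refine ⟨by linarith, by linarith, by linarith⟩

theorem main (n : ℕ) (hn : 100 ≤ n) (G : SimpleGraph (Fin n)) [DecidableRel G.Adj]
    (hfree : G.CliqueFree 3) (hcol : ¬ G.Colorable 3)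
    (hc : ∀ e ∈ G.edgeSet, (G.deleteEdges {e}).Colorable 3) :
    (G.edgeFinset.card : ℝ) ≤ (1 / 4 - 1 / 1000) * (n : ℝ) ^ 2 := by
  by_contra hlt
  push Not at hlt
  haveI : Nonempty (Fin n) := ⟨⟨0, by omega⟩⟩
  obtain ⟨v, hv⟩ := G.exists_maximal_degree_vertex
  set e := G.edgeFinset.card with he
  set P : Finset (Fin n) := G.neighborFinset v with hPdef
  have hPcard : P.card = G.maxDegree := by
    rw [hPdef, SimpleGraph.card_neighborFinset_eq_degree, hv]
  have hP : ∀ p ∈ P, ∀ q ∈ P, ¬ G.Adj p q := by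
    intro p hp q hq hpq
    rw [hPdef, SimpleGraph.mem_neighborFinset] at hp hq
    apply hfree {v, p, q}
    rw [SimpleGraph.is3Clique_triple_iff]
    exact ⟨hp, hq, hpq⟩
  set W : Finset (Fin n) := univ \ P with hWdef
  have hPW : P.card + W.card = n := by
    have h0 : (univ \ P).card + P.card = (univ : Finset (Fin n)).card :=
      card_sdiff_add_card_eq_card (subset_univ P)
    rw [card_univ, Fintype.card_fin] at h0
    rw [hWdef, add_comm]
    exact h0
  -- degrees
  have hdeg : ∑ w ∈ P, G.degree w + ∑ w ∈ W, G.degree w = 2 * e := by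
    rw [he, ← G.sum_degrees_eq_twice_card_edges, hWdef, add_comm]
    exact sum_sdiff (subset_univ P)
  have hdegP : ∀ p ∈ P, G.degree p + (W.filter (fun w => ¬ G.Adj p w)).card = W.card := by
    intro p hp
    have h1 : G.degree p = (W.filter (fun w => G.Adj p w)).card := by
      rw [← SimpleGraph.card_neighborFinset_eq_degree]
      congr 1
      ext w
      rw [SimpleGraph.mem_neighborFinset, mem_filter, hWdef, mem_sdiff]
      constructor
      · intro h
        exact ⟨⟨mem_univ _, fun hw => hP p hp w hw h⟩, h⟩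
      · exact fun h => h.2
    rw [h1]
    exact card_filter_add_card_filter_not (s := W) (fun w => G.Adj p w)
  set M := ∑ p ∈ P, (W.filter (fun w => ¬ G.Adj p w)).card with hM
  have hsumP : ∑ p ∈ P, G.degree p + M = P.card * W.card := by
    rw [hM, ← sum_add_distrib, sum_congr rfl hdegP, sum_const, smul_eq_mul]
  have hsumW : ∑ w ∈ W, G.degree w ≤ W.card * P.card := by
    rw [hPcard]
    calc ∑ w ∈ W, G.degree w ≤ ∑ _w ∈ W, G.maxDegree := sum_le_sum fun w _ => G.degree_le_maxDegree w
      _ = W.card * G.maxDegree := by rw [sum_const, smul_eq_mul]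
  have hMe : M + 2 * e ≤ 2 * (P.card * W.card) := by
    rw [← hdeg]
    have h0 : W.card * P.card = P.card * W.card := mul_comm _ _
    omega
  have heΔ : 2 * e ≤ n * P.card := by
    rw [← hdeg]
    have h1 : ∑ w ∈ P, G.degree w ≤ P.card * P.card := by
      calc ∑ w ∈ P, G.degree w ≤ ∑ _w ∈ P, G.maxDegree :=
            sum_le_sum fun w _ => G.degree_le_maxDegree w
        _ = P.card * P.card := by rw [sum_const, smul_eq_mul, hPcard]
    calc ∑ w ∈ P, G.degree w + ∑ w ∈ W, G.degree w ≤ P.card * P.card + W.card * P.card :=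
          add_le_add h1 hsumW
      _ = n * P.card := by rw [← add_mul, hPW]
  -- the threshold
  set z := n / 20 with hz
  set W' := W.filter (fun w => (P.filter (fun p => ¬ G.Adj w p)).card ≤ z) with hW'
  set P' := P.filter (fun p => (W.filter (fun w => ¬ G.Adj p w)).card ≤ z) with hP'
  have hX : (W \ W').card * (z + 1) ≤ M := by
    rw [hM, missing_comm, hW']
    exact markov W _ z
  have hY : (P \ P').card * (z + 1) ≤ M := by
    rw [hM, hP']
    exact markov P _ z
  have hXs : (W \ W').card + W'.card = W.card := card_sdiff_add_card_eq_card (filter_subset _ _)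
  have hYs : (P \ P').card + P'.card = P.card := card_sdiff_add_card_eq_card (filter_subset _ _)
  -- real versions
  have hn' : (100 : ℝ) ≤ n := by exact_mod_cast hn
  have hz1 : (n : ℝ) < 20 * (z + 1) := by
    have : n < 20 * (z + 1) := by omega
    exact_mod_cast this
  have hz2 : 20 * (z : ℝ) ≤ n := by
    have : 20 * z ≤ n := by omega
    exact_mod_cast this
  have rPW : (P.card : ℝ) + W.card = n := by exact_mod_cast hPW
  have rMe : (M : ℝ) + 2 * e ≤ 2 * (P.card * W.card) := by exact_mod_cast hMe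
  have reD : 2 * (e : ℝ) ≤ n * P.card := by exact_mod_cast heΔ
  have rX : ((W \ W').card : ℝ) * (z + 1) ≤ M := by exact_mod_cast hX
  have rY : ((P \ P').card : ℝ) * (z + 1) ≤ M := by exact_mod_cast hY
  have rXs : ((W \ W').card : ℝ) + W'.card = W.card := by exact_mod_cast hXs
  have rYs : ((P \ P').card : ℝ) + P'.card = P.card := by exact_mod_cast hYs
  obtain ⟨q1, q2, q3⟩ := numeric n e P.card W.card M z (W \ W').card (P \ P').card P'.card W'.card
    hn' hz1 hz2 rPW rMe reD rX rY (Nat.cast_nonneg _) (Nat.cast_nonneg _) hlt rXs rYs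
  have h1 : 3 * z + 2 ≤ P.card := by exact_mod_cast q1
  have h2 : 2 * z + 2 ≤ W'.card := by exact_mod_cast q2
  have hfin := card_le G hcol hc P hP z W' P' rfl rfl h1 h2
  have hfin2 : (P'.card : ℝ) ≤ ((W \ W').card : ℝ) + z := by exact_mod_cast hfin
  exact absurd hfin2 (not_le.2 q3)

end Pool.Agent.U388.TF4
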