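import Mathlib

set_option autoImplicit false

namespace Pool.Agent.U388.TF4

open Finset

/-- two further colours -/
lemma two_colours (γ : Fin 3) (f : Fin 3 → ℕ) :
    ∃ α β : Fin 3, α ≠ γ ∧ β ≠ γ ∧ (∀ κ : Fin 3, κ = γ ∨ κ = α ∨ κ = β) ∧ f β ≤ f α := by
  have h : ∃ α β : Fin 3, α ≠ γ ∧ β ≠ γ ∧ (∀ κ : Fin 3, κ = γ ∨ κ = α ∨ κ = β) := by
    revert γ; decide
  obtain ⟨α, β, h1, h2, h3⟩ := h
  rcases le_total (f β) (f α) with h4 | h4
  · exact ⟨α, β, h1, h2, h3, h4⟩
  · exact ⟨β, α, h2, h1, fun κ => by rcases h3 κ with h | h | h <;> tauto, h4⟩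

variable {V : Type*} [Fintype V] [DecidableEq V]

/-- The main argument: `P` is an independent set, `z` bounds the number of missing edges at the typical
vertices. -/
theorem exists_private (G : SimpleGraph V) [DecidableRel G.Adj] (hn : ¬ G.Colorable 3)
    (hc : ∀ e ∈ G.edgeSet, (G.deleteEdges {e}).Colorable 3)
    (P : Finset V) (hP : ∀ p ∈ P, ∀ q ∈ P, ¬ G.Adj p q) (z : ℕ)
    (W' P' : Finset V)
    (hW' : W' = (univ \ P).filter (fun w => (P.filter (fun p => ¬ G.Adj w p)).card ≤ z))
    (hP' : P' = P.filter (fun p => ((univ \ P).filter (fun w => ¬ G.Adj p w)).card ≤ z))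
    (h1 : 3 * z + 2 ≤ P.card) (h2 : 2 * z + 2 ≤ W'.card)
    (a b : V) (ha : a ∈ P') (hb : b ∈ W') (hab : G.Adj a b) :
    ∃ x ∈ (univ \ P) \ W', G.Adj x a ∧ ∀ a' ∈ P', G.Adj x a' → G.Adj b a' → a' = a := by
  obtain ⟨C⟩ := hc s(a, b) hab
  have hdel : ∀ u v, G.Adj u v → s(u, v) ≠ s(a, b) → C u ≠ C v := by
    intro u v huv hne
    apply C.valid
    rw [SimpleGraph.deleteEdges_adj]
    exact ⟨huv, by simpa using hne⟩
  have haP : a ∈ P := by
    rw [hP'] at ha; exact (mem_filter.1 ha).1
  have haz : ((univ \ P).filter (fun w => ¬ G.Adj a w)).card ≤ z := by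
    rw [hP'] at ha; exact (mem_filter.1 ha).2
  have hbP : b ∉ P := by
    rw [hW'] at hb
    have := (mem_filter.1 hb).1
    simpa using this
  have hbz : (P.filter (fun p => ¬ G.Adj b p)).card ≤ z := by
    rw [hW'] at hb; exact (mem_filter.1 hb).2
  have hne_ab : a ≠ b := hab.ne
  -- the ends of the deleted edge have the same colour
  have hCab : C a = C b := by
    by_contra hne
    apply hn
    refine ⟨SimpleGraph.Coloring.mk C ?_⟩
    intro u v huv
    by_cases he : s(u, v) = s(a, b)
    · rcases Sym2.eq_iff.1 he with ⟨rfl, rfl⟩ | ⟨rfl, rfl⟩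
      · exact hne
      · exact fun h => hne h.symm
    · exact hdel u v huv he
  obtain ⟨α, β, hα, hβ, hall, hcnt⟩ := two_colours (C a) (fun κ => (P.filter (fun p => C p = κ)).card)
  -- an edge with an end of colour different from `C a` is not the deleted one
  have hdel2 : ∀ u v, G.Adj u v → C u ≠ C a → C u ≠ C v := by
    intro u v huv hu
    apply hdel u v huv
    intro he
    rcases Sym2.eq_iff.1 he with ⟨rfl, rfl⟩ | ⟨rfl, rfl⟩
    · exact hu rfl
    · exact hu hCab.symm
  -- Step A
  have hA : z + 1 ≤ (P.filter (fun p => C p = α)).card := by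
    have hsub : P ⊆ (P.filter (fun p => C p = α) ∪ P.filter (fun p => C p = β)) ∪
        (P.filter (fun p => ¬ G.Adj b p) ∪ {a}) := by
      intro p hp
      by_cases hpa : p = a
      · simp [hpa]
      · by_cases hbp : G.Adj b p
        · have hne : C b ≠ C p := by
            apply hdel b p hbp
            intro he
            rcases Sym2.eq_iff.1 he with ⟨h3, h4⟩ | ⟨h3, h4⟩
            · exact hne_ab h3.symm
            · exact hpa h4
          rcases hall (C p) with h | h | h
          · exact absurd (h.trans hCab).symm hne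
          · simp [hp, h]
          · simp [hp, h]
        · simp [hp, hbp]
    have h3 := card_le_card hsub
    have h4 := card_union_le (P.filter (fun p => C p = α) ∪ P.filter (fun p => C p = β))
      (P.filter (fun p => ¬ G.Adj b p) ∪ {a})
    have h5 := card_union_le (P.filter (fun p => C p = α)) (P.filter (fun p => C p = β))
    have h6 := card_union_le (P.filter (fun p => ¬ G.Adj b p)) {a}
    rw [card_singleton] at h6
    omega
  -- Step B
  have hB : ∀ w ∈ W', C w ≠ α := by
    intro w hw hwα
    have hwz : (P.filter (fun p => ¬ G.Adj w p)).card ≤ z := by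
      rw [hW'] at hw; exact (mem_filter.1 hw).2
    have hsub : P.filter (fun p => C p = α) ⊆ P.filter (fun p => ¬ G.Adj w p) := by
      intro p hp
      rw [mem_filter] at hp ⊢
      refine ⟨hp.1, fun hadj => ?_⟩
      exact hdel2 w p hadj (by rw [hwα]; exact hα) (by rw [hwα, hp.2])
    have := card_le_card hsub
    omega
  -- Step C
  have hC : z + 1 ≤ (W'.filter (fun w => C w = β)).card := by
    have hsub : W' ⊆ W'.filter (fun w => C w = β) ∪
        ((univ \ P).filter (fun w => ¬ G.Adj a w) ∪ {b}) := by
      intro w hw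
      have hwP : w ∈ univ \ P := by
        rw [hW'] at hw; exact (mem_filter.1 hw).1
      rcases hall (C w) with h | h | h
      · by_cases hwb : w = b
        · simp [hwb]
        · have : ¬ G.Adj a w := by
            intro hadj
            refine hdel a w hadj ?_ h.symm
            intro he
            rcases Sym2.eq_iff.1 he with ⟨h3, h4⟩ | ⟨h3, h4⟩
            · exact hwb h4
            · exact hne_ab h3
          rw [mem_union, mem_union, mem_filter (s := univ \ P)]
          exact Or.inr (Or.inl ⟨hwP, this⟩)
      · exact absurd h (hB w hw)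
      · simp [hw, h]
    have h3 := card_le_card hsub
    have h4 := card_union_le (W'.filter (fun w => C w = β))
      ((univ \ P).filter (fun w => ¬ G.Adj a w) ∪ {b})
    have h6 := card_union_le ((univ \ P).filter (fun w => ¬ G.Adj a w)) {b}
    rw [card_singleton] at h6
    omega
  -- Step D
  have hD : ∀ p ∈ P', C p ≠ β := by
    intro p hp hpβ
    have hpz : ((univ \ P).filter (fun w => ¬ G.Adj p w)).card ≤ z := by
      rw [hP'] at hp; exact (mem_filter.1 hp).2
    have hsub : W'.filter (fun w => C w = β) ⊆ (univ \ P).filter (fun w => ¬ G.Adj p w) := by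
      intro w hw
      rw [mem_filter] at hw
      have hwP : w ∈ univ \ P := by
        have := hw.1
        rw [hW'] at this; exact (mem_filter.1 this).1
      rw [mem_filter]
      refine ⟨hwP, fun hadj => ?_⟩
      exact hdel2 p w hadj (by rw [hpβ]; exact hβ) (by rw [hpβ, hw.2])
    have := card_le_card hsub
    omega
  -- Step E
  have hE : ∃ x, G.Adj a x ∧ C x = α := by
    by_contra hno
    push Not at hno
    apply hn
    refine ⟨SimpleGraph.Coloring.mk (Function.update C a α) ?_⟩
    intro u v huv
    by_cases hu : u = a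
    · subst hu
      have hv : v ≠ u := huv.ne'
      rw [Function.update_self, Function.update_of_ne hv]
      exact fun h => hno v huv h.symm
    · by_cases hv : v = a
      · subst hv
        rw [Function.update_self, Function.update_of_ne hu]
        exact hno u huv.symm
      · rw [Function.update_of_ne hu, Function.update_of_ne hv]
        apply hdel u v huv
        intro he
        rcases Sym2.eq_iff.1 he with ⟨h3, _⟩ | ⟨_, h3⟩
        · exact hu h3
        · exact hv h3
  obtain ⟨x, hax, hxα⟩ := hE
  have hxP : x ∉ P := fun hx => hP a haP x hx hax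
  have hxW' : x ∉ W' := fun hx => hB x hx hxα
  refine ⟨x, by simp [hxP, hxW'], hax.symm, ?_⟩
  intro a' ha' hxa' hba'
  by_contra hne
  have h3 : C x ≠ C a' := hdel2 x a' hxa' (by rw [hxα]; exact hα)
  have h4 : C a' ≠ β := hD a' ha'
  have h5 : C a' = C a := by
    rcases hall (C a') with h | h | h
    · exact h
    · exact absurd (hxα.trans h.symm) h3
    · exact absurd h h4
  have h6 : C b ≠ C a' := by
    apply hdel b a' hba'
    intro he
    rcases Sym2.eq_iff.1 he with ⟨h7, _⟩ | ⟨_, h7⟩
    · exact hne_ab h7.symm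
    · exact hne h7
  exact h6 (by rw [h5, hCab])

end Pool.Agent.U388.TF4
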